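import Mathlib
import Pool.Agent.Q1.PAS

/-!
# Thin sequences all of whose curves have bounded rank

`W_t : y² = x (x - D(t) u₀(t)) (x - D(t) u₁(t))` is a family of elliptic curves over `ℚ` as in
`UnbalancedPencils`: `u₀`, `u₁` and `u₂ = u₀ - u₁` are constants times products of `n_k` irreducible
polynomials, all different, `D` is any nonzero polynomial prime to them, and
`2 n_k + s_k ≤ n₀ + n₁ + n₂` for `k = 0, 1, 2`, where `s_k` is the number of the factors of `u_k`
with split multiplicative reduction. There is `R`, depending on the family and `δ > 0` only, such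
that for all sequences with `x_(n+1) ≥ x_n ^ (1 + δ)` and `x_0` large the `α` for which ALL the
curves `W_t`, `t = ⌊α x_n⌋`, have rank at most `R` form a set of Hausdorff dimension one.
-/

set_option autoImplicit false

namespace Pool.Agent.Results.MP_9e6228_nt.DimensionAlongSequences

open Finset Polynomial Filter MeasureTheory

open Pool.Agent.Results.MP_157626_nt.UnbalancedPencils (s u)

open Pool.Agent.Q1.PAS (Nonsingular Bounded)

/-- **Theorem.** Let `u_k = a_k ∏_{i < n_k} f_{k,i}`, `k = 0, 1, 2`, be polynomials with integer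
coefficients with `u₀ - u₁ = u₂`, where `a_k ≠ 0` and the `n₀ + n₁ + n₂` polynomials `f_{k,i}` are
irreducible of positive degree and pairwise non-associated, let `D ≠ 0` be a polynomial with integer
coefficients not divisible by any `f_{k,i}`, and let `s_k` be the number of the `i` such that
`y² = x (x - D u₀) (x - D u₁)` has split multiplicative reduction at `f_{k,i}`. Assume that
`2 n_k + s_k ≤ n₀ + n₁ + n₂` for `k = 0, 1, 2`. Let `W_t : y² = x (x - D(t) u₀(t)) (x - D(t) u₁(t))`.
For all `δ > 0` there is `R` such that for all `b < c` and all sequences with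
`x_(n+1) ≥ x_n ^ (1 + δ)` for all `n` and `x_0` large enough (in terms of `b` and `c`) the set of
the `α` in `[b, c]` such that for all `n` the curve `W_t`, `t = ⌊α x_n⌋`, is an elliptic curve and
`Bounded` with `y = 2 ^ R` (so of rank at most `R`) has Hausdorff dimension one. -/
theorem result (n : Fin 3 → ℕ) (a : Fin 3 → ℤ) (f : ∀ k : Fin 3, Fin (n k) → ℤ[X]) (D : ℤ[X])
    (ha : ∀ k, a k ≠ 0) (hf : ∀ k i, Irreducible (f k i) ∧ 0 < (f k i).natDegree)
    (hf' : ∀ k i l j, (⟨k, i⟩ : Σ k : Fin 3, Fin (n k)) ≠ ⟨l, j⟩ → ¬ Associated (f k i) (f l j))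
    (hu : u a f 0 - u a f 1 = u a f 2) (hD : D ≠ 0) (hDf : ∀ k i, ¬ f k i ∣ D)
    (hs : ∀ k, 2 * n k + s D a f k ≤ n 0 + n 1 + n 2) :
    ∀ δ : ℝ, 0 < δ → ∃ R : ℕ, ∀ b c : ℝ, b < c → ∃ X₀ : ℝ, ∀ x : ℕ → ℝ, X₀ ≤ x 0 →
      (∀ m, x m ^ (1 + δ) ≤ x (m + 1)) →
      dimH {α : ℝ | b ≤ α ∧ α ≤ c ∧ ∀ m, Nonsingular D a f ⌊α * x m⌋ ∧
        Bounded D a f (2 ^ R) ⌊α * x m⌋} = 1 :=
  (Pool.Agent.Q1.PAS.all n a f D ha hf hf' hu hD hDf hs).2.2

end Pool.Agent.Results.MP_9e6228_nt.DimensionAlongSequences
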