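import Mathlib
import Pool.Agent.Q29.TW.PtsW
import Pool.Agent.Q29.TW.TwRank

/-!
# The points with few digits on the quadratic twists of an elliptic curve

Let `K` be a number field, `y² = x³ + a x + b` an elliptic curve with `a, b` in the ring of integers
`O` of `K`, `d` a nonconstant squarefree polynomial over `O` and `t` any element of `K` with
`d(t) ≠ 0`. We consider the quadratic twist

  `E_t : y² = x³ + a d(t)² x + b d(t)³`.

We construct a subgroup `Γ` of `E_t(K)` of rank at most `[K : ℚ] ⌊(deg d - 1) / 2⌋` (so at most the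
genus `⌊(deg d - 1) / 2⌋` of the curve `s² = d(T)` if `K = ℚ`) that contains all the points of
`E_t(K)` with few digits with respect to `t`, in the following sense. The point `(x, y)` with

  `x = u/w`, `y = v/w`, `(u, v, w) = ∑_{l ≤ r} v_l t^(m_l) ∏_i F_i(t)^(e_il)`

(`v_l` vectors of integers of `K` of house at most `H`, arbitrary exponents `m_l`, any number of
polynomials `F_i` over `O` of total degree at most `D`, with coefficients of house at most `H`,
whose constant terms are roots of unity, `∑_i e_il ≤ N` for all `l`) is in `Γ` as soon as the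
absolute height of `t` is at least `(C H N) ^ C`, where the houses of `a`, `b` and of the
coefficients of `d` are at most `H`. Here `C` depends only on `r`, `D` and (an upper bound for)
`deg d`; it does not depend on the field, the curve, `d`, `t`, `N` and `H`.

If `deg d ≤ 2`, then `P + P = 0` for all `P` in `Γ`.
-/

set_option autoImplicit false

namespace Pool.Agent.Results.MP_9e6228_nt.TwistPointsWithFewDigits

open Polynomial NumberField

section defs

/-- Vectors `p` of three polynomials of the form `p = ∑ v_l X^(m_l) ∏_i F_i^(e_il)`, `r` terms,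
where the `v_l` are vectors of integers of `K` of house at most `H`, the exponents `m_l` are
arbitrary, the `F_i` (any number of them) are polynomials of total degree at most `D` with integral
coefficients of house at most `H` whose constant terms are roots of unity, and `∑_i e_il ≤ N` for
each `l`. (`house` is the largest absolute value of the conjugates.) -/
def PowerVec {K : Type} [Field K] [NumberField K] (r D N : ℕ) (H : ℝ)
    (p : Fin 3 → (𝓞 K)[X]) : Prop :=
  ∃ (q : ℕ) (F : Fin q → (𝓞 K)[X]) (m : Fin r → ℕ) (e : Fin r → Fin q → ℕ)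
    (v : Fin r → Fin 3 → 𝓞 K), ∑ i, (F i).natDegree ≤ D ∧
    (∀ i, ∃ j, 0 < j ∧ (F i).coeff 0 ^ j = 1) ∧
    (∀ i j, house (algebraMap (𝓞 K) K ((F i).coeff j)) ≤ H) ∧
    (∀ l, ∑ i, e l i ≤ N) ∧ (∀ l i, house (algebraMap (𝓞 K) K (v l i)) ≤ H) ∧
    ∀ i, p i = ∑ l, C (v l i) * (X ^ m l * ∏ j, F j ^ e l j)

/-- The numbers `x` and `y` are `u/w` and `v/w`, where `(u, v, w) = p(t)` for a vector `p` as
above. -/
def FewDigits {K : Type} [Field K] [NumberField K] (t : K) (r D N : ℕ) (H : ℝ) (x y : K) : Prop :=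
  ∃ p : Fin 3 → (𝓞 K)[X], PowerVec r D N H p ∧ aeval t (p 2) ≠ 0 ∧
    x = aeval t (p 0) / aeval t (p 2) ∧ y = aeval t (p 1) / aeval t (p 2)

/-- The absolute multiplicative height of `t` is at least `(C H N) ^ C`. (`Height.mulHeight₁ t` is
the height relative to `K`, the power with exponent `[K : ℚ]` of the absolute height; for `K = ℚ` it
is the maximum of the absolute values of numerator and denominator.) -/
def Large {K : Type} [Field K] [NumberField K] (C N : ℕ) (H : ℝ) (t : K) : Prop :=
  ((C * (H * N)) ^ C) ^ Module.finrank ℚ K ≤ Height.mulHeight₁ t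

/-- The quadratic twist `y² = x³ + a d(t)² x + b d(t)³`. -/
noncomputable def Twist {K : Type} [Field K] [NumberField K] (a b : 𝓞 K) (d : (𝓞 K)[X]) (t : K) :
    WeierstrassCurve.Affine K :=
  ⟨0, 0, 0, algebraMap (𝓞 K) K a * aeval t d ^ 2, algebraMap (𝓞 K) K b * aeval t d ^ 3⟩

end defs

theorem result : ∃ C : ℕ → ℕ → ℕ → ℕ, ∀ (K : Type) [Field K] [NumberField K] [DecidableEq K]
    (a b : 𝓞 K) (d : (𝓞 K)[X]) (t : K), 4 * a ^ 3 + 27 * b ^ 2 ≠ 0 →
    Squarefree (d.map (algebraMap (𝓞 K) K)) → 1 ≤ d.natDegree → aeval t d ≠ 0 →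
    ∃ Γ : AddSubgroup (Twist a b d t).Point,
      Module.rank ℤ Γ ≤ (Module.finrank ℚ K * ((d.natDegree - 1) / 2) : ℕ) ∧
      (d.natDegree ≤ 2 → ∀ P ∈ Γ, P + P = 0) ∧
      ∀ (r D N : ℕ) (H : ℝ), 1 ≤ N → 1 ≤ H → house (algebraMap (𝓞 K) K a) ≤ H →
        house (algebraMap (𝓞 K) K b) ≤ H → (∀ i, house (algebraMap (𝓞 K) K (d.coeff i)) ≤ H) →
        Large (C r D d.natDegree) N H t →
        ∀ (x y : K) (h : (Twist a b d t).Nonsingular x y), FewDigits t r D N H x y →
          WeierstrassCurve.Affine.Point.some x y h ∈ Γ := by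
  refine ⟨fun r D D' => Pool.Agent.Q29.TW.Cst r D D' (2 + 3 + 3) 4, ?_⟩
  intro K _ _ _ a b d t hdisc hsq hd1 hdt
  have hinj : Function.Injective (algebraMap (𝓞 K) K) := FaithfulSMul.algebraMap_injective _ _
  have hnd : (d.map (algebraMap (𝓞 K) K)).natDegree = d.natDegree :=
    natDegree_map_eq_of_injective hinj d
  have hev : ∀ p : (𝓞 K)[X], (p.map (algebraMap (𝓞 K) K)).eval t = aeval t p :=
    fun p => eval_map_algebraMap p t
  have hdisc' : 4 * algebraMap (𝓞 K) K a ^ 3 + 27 * algebraMap (𝓞 K) K b ^ 2 ≠ 0 := by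
    intro h0
    apply hdisc
    apply hinj
    rw [map_zero, ← h0]
    simp only [map_add, map_mul, map_pow, map_ofNat]
  have hcrv : Twist a b d t = Pool.Agent.H925R3.DC.crv K
      ((Pool.Agent.Q29.TW.tA (algebraMap (𝓞 K) K a) (d.map (algebraMap (𝓞 K) K))).eval t)
      ((Pool.Agent.Q29.TW.tB (algebraMap (𝓞 K) K b) (d.map (algebraMap (𝓞 K) K))).eval t) := by
    unfold Pool.Agent.H925R3.DC.crv Pool.Agent.Q29.TW.tA Pool.Agent.Q29.TW.tB Twist
    rw [eval_mul, eval_mul, eval_pow, eval_pow, eval_C, eval_C, hev]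
  obtain ⟨Γ, h1, h2, h3⟩ := Pool.Agent.Q29.TW.tw_main' hsq (by rw [hnd]; exact hd1) hdisc' t
    (by rw [hev]; exact hdt) (Twist a b d t) hcrv
  rw [hnd] at h1 h2
  refine ⟨Γ, h1, h2, ?_⟩
  rintro r D N H hN hH ha hb hd ht x y h ⟨p, hp, hw, hx, hy⟩
  have heq : y ^ 2 = x ^ 3 + algebraMap (𝓞 K) K a * aeval t d ^ 2 * x +
      algebraMap (𝓞 K) K b * aeval t d ^ 3 := by
    have h4 := h.1
    rw [WeierstrassCurve.Affine.equation_iff] at h4
    simpa [Twist] using h4
  have hlift := Pool.Agent.Q29.TW.lift_w 2 3 hN hH ht a b ha hb d le_rfl hd p hp (by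
    rw [hx, hy] at heq
    field_simp at heq
    linear_combination heq)
  refine h3 ((p 0).map (algebraMap (𝓞 K) K)) ((p 1).map (algebraMap (𝓞 K) K))
    ((p 2).map (algebraMap (𝓞 K) K)) (by rw [hev]; exact hw) ?_ x y (by rw [hev, hev]; exact hx)
    (by rw [hev, hev]; exact hy) h
  unfold Pool.Agent.Q29.TW.tA Pool.Agent.Q29.TW.tB
  linear_combination hlift

end Pool.Agent.Results.MP_9e6228_nt.TwistPointsWithFewDigits
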